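import Pool.Agent.Helper22.QC.Sem
import Pool.Agent.Helper22.QC.TablesA

/-!
# The potential `K = (e + [e ≥ 1]) / 11`
-/

namespace Pool.Agent.Helper22.QC

/-- parameters in units of `1/22` (`K`, `lam / 2`, `kap`) and `1/264` (`G`) -/
def potU : Pot :=
  ⟨2, 2, 0, 6, [10, 4, 6, 0, 2, 2, 3], [0, 0, 0, 0, 0, 0, 0],
    [[0, 8, 10, 0, 0], [72, 40, 22, 12, 0], [72, 40, 24, 0, 0], [60, 36, 0, 0, 0], [48, 0, 0, 0, 0]]⟩

theorem potA_eq : potA = potU.scale 16384 := by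
  unfold potA potU Pot.scale
  norm_num

end Pool.Agent.Helper22.QC
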