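import Mathlib.Algebra.Group.Nat.Defs

/-!
# Checkable certificates for the four-sample inequality: the checker

This file and the modules of the certificate import almost nothing, so they need little memory.
-/

namespace Pool.Agent.Helper22.QC

/-- Integer parameters of a potential: `K(f,f') = KE e + K1 [e ≥ 1] - KB e [both minimal]`, the
weights `lp - lm` of new colours (classes FF, FL, FD, LL aligned, LL opposed, LD, DD), `kap` for
common new colours, and the table `G` of the gain of a colour (number of live, of dead entries). -/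
structure Pot where
  KE : ℕ
  K1 : ℕ
  KB : ℕ
  kap : ℕ
  lp : List ℕ
  lm : List ℕ
  G : List (List ℕ)

/-- the set of allowed codes (4 bits) of a pattern at the component `i` -/
def nib (A i : ℕ) : ℕ := A / 16 ^ i % 16

/-! ## packed sets of types -/

/-- the four bits of `m` at distance `w` -/
def spr (w m : ℕ) : ℕ :=
  m % 2 + (m / 2 % 2) * 2 ^ w + (m / 4 % 2) * 2 ^ (2 * w) + (m / 8 % 2) * 2 ^ (3 * w)

def spz (w m : ℕ) : ℕ := bif Nat.beq m 15 then spr w 15 else m % 2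

/-- `Σ_{t ∈ A} 2 ^ (w t)` -/
def mk (w A : ℕ) : ℕ :=
  spr w (nib A 0) * spr (4 * w) (nib A 1) * spr (16 * w) (nib A 2) * spr (64 * w) (nib A 3) -
  spz w (nib A 0) * spz (4 * w) (nib A 1) * spz (16 * w) (nib A 2) * spz (64 * w) (nib A 3)

/-- `Σ_{t < 256} 2 ^ (40 t + 39)` -/
def H40 : ℕ := 0x800000000080000000008000000000800000000080000000008000000000800000000080000000008000000000800000000080000000008000000000800000000080000000008000000000800000000080000000008000000000800000000080000000008000000000800000000080000000008000000000800000000080000000008000000000800000000080000000008000000000800000000080000000008000000000800000000080000000008000000000800000000080000000008000000000800000000080000000008000000000800000000080000000008000000000800000000080000000008000000000800000000080000000008000000000800000000080000000008000000000800000000080000000008000000000800000000080000000008000000000800000000080000000008000000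00080000000008000000000800000000080000000008000000000800000000080000000008000000000800000000080000000008000000000800000000080000000008000000000800000000080000000008000000000800000000080000000008000000000800000000080000000008000000000800000000080000000008000000000800000000080000000008000000000800000000080000000008000000000800000000080000000008000000000800000000080000000008000000000800000000080000000008000000000800000000080000000008000000000800000000080000000008000000000800000000080000000008000000000800000000080000000008000000000800000000080000000008000000000800000000080000000008000000000800000000080000000008000000000800000000080000000008000000000800000000080000000008000000000800000000080000000008000000000800000000080000000008000000000800000000080000000008000000000800000000080000000008000000000800000000080000000008000000000800000000080000000008000000000800000000080000000008000000000800000000080000000008000000000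80000000008000000000800000000080000000008000000000800000000080000000008000000000800000000080000000008000000000800000000080000000008000000000800000000080000000008000000000800000000080000000008000000000800000000080000000008000000000800000000080000000008000000000800000000080000000008000000000800000000080000000008000000000800000000080000000008000000000800000000080000000008000000000800000000080000000008000000000800000000080000000008000000000800000000080000000008000000000800000000080000000008000000000800000000080000000008000000000800000000080000000008000000000800000000080000000008000000000800000000080000000008000000000800000000080000000008000000000800000000080000000008000000000800000000080000000008000000000800000000080000000008000000000800000000080000000008000000000800000000080000000008000000000800000000080000000008000000000800000000080000000008000000000800000000080000000008000000000800000000080000000008000000000800000000080000000008000000000800000000080000000008000000000800000000080000000008000000000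

/-- all digits (base `2 ^ 40`, assumed `< 2 ^ 39`) of `x` are at most those of `y` -/
def cmpF (x y : ℕ) : Bool := Nat.beq (Nat.land (y + H40 - x) H40) H40

/-- the types which are excluded by the region (as a 256 bit mask) -/
def kill : List ℕ → ℕ
  | [] => 0
  | l :: R => bif Nat.beq (l % 4) 2 then Nat.lor (mk 1 (l / 4)) (kill R) else kill R

def has (R : List ℕ) (l : ℕ) : Bool := R.any (Nat.beq l)

/-- is the pattern empty in the region? -/
def isE (kl A : ℕ) : Bool := Nat.beq (Nat.land (mk 1 A) kl) (mk 1 A)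

/-- the field `i` (24 bits) of a certificate -/
def fd (x i : ℕ) : ℕ := Nat.shiftRight x (24 * i) % 16777216

/-- signed field: positive part, negative part -/
def sp (v : ℕ) : ℕ := bif Nat.ble 8388608 v then 0 else v

def sm (v : ℕ) : ℕ := v - 8388608

def mx (a b : ℕ) : ℕ := bif Nat.ble a b then b else a

def dot : List ℕ → List ℕ → ℕ
  | a :: x, b :: y => a * b + dot x y
  | _, _ => 0

/-! ## patterns of the sides -/

/-- the four codes allowed for a private side of a merge -/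
def nbM (x : ℕ) : ℕ := 1 + 2 ^ (x + 1)

/-- private colours of the side of the merge of `i, j` which contains side `x` of `i` and side `y`
of `j` -/
def mP (i x j y : ℕ) : ℕ := 65535 - (15 - nbM x) * 16 ^ i - (15 - nbM y) * 16 ^ j

/-- live colours of the side `x` of `i` -/
def lP (i x : ℕ) : ℕ := 65535 - (15 - 2 ^ (x + 1)) * 16 ^ i

/-! ## certificate of a term -/

structure TC where
  l00 : ℕ
  l01 : ℕ
  l10 : ℕ
  l11 : ℕ
  p0 : ℕ
  p1 : ℕ
  p2 : ℕ
  p3 : ℕ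
  m0 : ℕ
  m1 : ℕ
  m2 : ℕ
  m3 : ℕ

/-- allowed kinds of new colours (12 bit masks) on the sides 0, 1 of `f` and 0, 1 of `f'`.
Kinds: 0 none, 1 free in the other pair, not common, 2, 3 common with side 0, 1 of the other fix,
4 … 11 class in the other pair -/
structure Msk where
  a0 : ℕ
  a1 : ℕ
  a2 : ℕ
  a3 : ℕ

def mAll : Msk := ⟨4095, 4095, 4095, 4095⟩

/-- index of the weight of a kind `4 … 11` -/
def lamI : List ℕ := [1, 3, 1, 3, 4, 2, 5, 6]

def wOne (cov c0 c1 p0 m0 p1 m1 lp lm : ℕ) (b0 b1 : Bool) : ℕ :=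
  mx cov (mx (bif b0 then c0 + p0 + lm - (m0 + lp) else 0)
    (bif b1 then c1 + p1 + lm - (m1 + lp) else 0))

/-- the 20 class weights of a term -/
def wts (P : Pot) (A : Msk) (c : TC) : List ℕ :=
  let g := fun (cov c0 c1 p0 m0 p1 m1 k i a b : ℕ) =>
    wOne cov c0 c1 p0 m0 p1 m1 (P.lp.getD i 0) (P.lm.getD i 0) (a.testBit k) (b.testBit k)
  [c.l00, c.l01, c.l10, c.l11,
   g (c.l00 + c.l10) c.l00 c.l10 c.p0 c.m0 c.p1 c.m1 4 1 A.a0 A.a1,
   g (c.l00 + c.l10) c.l00 c.l10 c.p0 c.m0 c.p1 c.m1 5 3 A.a0 A.a1,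
   g (c.l01 + c.l11) c.l01 c.l11 c.p0 c.m0 c.p1 c.m1 6 1 A.a0 A.a1,
   g (c.l01 + c.l11) c.l01 c.l11 c.p0 c.m0 c.p1 c.m1 7 3 A.a0 A.a1,
   g 0 0 0 c.p0 c.m0 c.p1 c.m1 8 4 A.a0 A.a1,
   g 0 0 0 c.p0 c.m0 c.p1 c.m1 9 2 A.a0 A.a1,
   g 0 0 0 c.p0 c.m0 c.p1 c.m1 10 5 A.a0 A.a1,
   g 0 0 0 c.p0 c.m0 c.p1 c.m1 11 6 A.a0 A.a1,
   g (c.l00 + c.l01) c.l00 c.l01 c.p2 c.m2 c.p3 c.m3 4 1 A.a2 A.a3,
   g (c.l00 + c.l01) c.l00 c.l01 c.p2 c.m2 c.p3 c.m3 5 3 A.a2 A.a3,
   g (c.l10 + c.l11) c.l10 c.l11 c.p2 c.m2 c.p3 c.m3 6 1 A.a2 A.a3,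
   g (c.l10 + c.l11) c.l10 c.l11 c.p2 c.m2 c.p3 c.m3 7 3 A.a2 A.a3,
   g 0 0 0 c.p2 c.m2 c.p3 c.m3 8 4 A.a2 A.a3,
   g 0 0 0 c.p2 c.m2 c.p3 c.m3 9 2 A.a2 A.a3,
   g 0 0 0 c.p2 c.m2 c.p3 c.m3 10 5 A.a2 A.a3,
   g 0 0 0 c.p2 c.m2 c.p3 c.m3 11 6 A.a2 A.a3]

/-- admissibility of the multipliers of a term.  `nb`: the two fixes are not both minimal -/
def tOK (P : Pot) (nb : Bool) (A : Msk) (c : TC) : Bool :=
  let S := bif nb then P.KE else P.KE - P.KB
  let f := P.lp.getD 0 0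
  let h := P.lm.getD 0 0
  Nat.ble ((c.l00 - S) + (c.l01 - S) + (c.l10 - S) + (c.l11 - S)) P.K1 &&
  (!(A.a0.testBit 1) || Nat.ble (c.l00 + c.l01 + c.p0 + h) (f + c.m0)) &&
  (!(A.a1.testBit 1) || Nat.ble (c.l10 + c.l11 + c.p1 + h) (f + c.m1)) &&
  (!(A.a2.testBit 1) || Nat.ble (c.l00 + c.l10 + c.p2 + h) (f + c.m2)) &&
  (!(A.a3.testBit 1) || Nat.ble (c.l01 + c.l11 + c.p3 + h) (f + c.m3)) &&
  (!(A.a0.testBit 2) || !(A.a2.testBit 2) ||
    Nat.ble (c.l00 + c.p0 + c.p2 + P.kap + 2 * h) (2 * f + c.m0 + c.m2)) &&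
  (!(A.a0.testBit 3) || !(A.a3.testBit 2) ||
    Nat.ble (c.l01 + c.p0 + c.p3 + P.kap + 2 * h) (2 * f + c.m0 + c.m3)) &&
  (!(A.a1.testBit 2) || !(A.a2.testBit 3) ||
    Nat.ble (c.l10 + c.p1 + c.p2 + P.kap + 2 * h) (2 * f + c.m1 + c.m2)) &&
  (!(A.a1.testBit 3) || !(A.a3.testBit 3) ||
    Nat.ble (c.l11 + c.p1 + c.p3 + P.kap + 2 * h) (2 * f + c.m1 + c.m3))

/-! ## tables -/

/-- data of a term: patterns of the four private sides, packed class masks -/
structure TD where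
  mp : List ℕ
  ms : List ℕ
  deriving DecidableEq

/-- data of a pair of components: the four merge patterns with the two positions of the multipliers
of the sides, and the four live patterns -/
structure PD where
  mz : List (ℕ × ℕ × ℕ)
  lz : List ℕ
  deriving DecidableEq

/-! ## ordinary leaves -/

/-- accumulated certificate: ok, gain, loss, packed left and right hand sides -/
structure Acc where
  ok : Bool
  ga : ℕ
  lo : ℕ
  L : ℕ
  R : ℕ

def Acc.add (a b : Acc) : Acc := ⟨a.ok && b.ok, a.ga + b.ga, a.lo + b.lo, a.L + b.L, a.R + b.R⟩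

/-- multiplier of a packed pattern -/
def ymk (y A : ℕ) : ℕ := bif Nat.beq y 0 then 0 else y * mk 40 A

def tcOf (x i : ℕ) : TC :=
  ⟨fd x i, fd x (i + 1), fd x (i + 2), fd x (i + 3), sp (fd x (i + 4)), sp (fd x (i + 5)),
   sp (fd x (i + 6)), sp (fd x (i + 7)), sm (fd x (i + 4)), sm (fd x (i + 5)), sm (fd x (i + 6)),
   sm (fd x (i + 7))⟩

def tAcc (P : Pot) (R : List ℕ) (x : ℕ) (td : TD) (i : ℕ) : Acc :=
  let c := tcOf x i
  ⟨tOK P (td.mp.any fun A => has R (4 * A + 1)) mAll c, c.l00 + c.l01 + c.l10 + c.l11,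
    c.m0 + c.m1 + c.m2 + c.m3, dot (wts P mAll c) td.ms, 0⟩

def tLoop (P : Pot) (R : List ℕ) (x : ℕ) : List TD → ℕ → Acc
  | [], _ => ⟨true, 0, 0, 0, 0⟩
  | td :: ts, i => (tAcc P R x td i).add (tLoop P R x ts (i + 8))

/-- is the pattern non-empty in the region? -/
def isN (R : List ℕ) (A : ℕ) : Bool := has R (4 * A) || has R (4 * A + 1)

def zAcc (R : List ℕ) (kl x κ : ℕ) (z : ℕ × ℕ × ℕ) (j : ℕ) : Acc :=
  let mu := fd x j
  let om := sp (fd x z.2.1) + sp (fd x z.2.2)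
  bif isE kl z.1 then ⟨true, om, κ, ymk mu z.1, 0⟩
  else bif isN R z.1 then ⟨true, mu, 0, ymk mu z.1, 0⟩
  else ⟨true, mu, κ + mu - om, ymk mu z.1, 0⟩

def zLoop (R : List ℕ) (kl x κ : ℕ) : List (ℕ × ℕ × ℕ) → ℕ → Acc
  | [], _ => ⟨true, 0, 0, 0, 0⟩
  | z :: zs, j => (zAcc R kl x κ z j).add (zLoop R kl x κ zs (j + 1))

def cntN (R : List ℕ) : List (ℕ × ℕ × ℕ) → ℕ
  | [] => 0
  | z :: zs => (bif isN R z.1 then 0 else 1) + cntN R zs

def ymkL (y : ℕ) : List ℕ → ℕ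
  | [] => 0
  | A :: l => ymk y A + ymkL y l

/-- pair number `p`: fields `96 + p` (`θ`), `102 + p` (`b`), `116 + 4 p, …` (`μ`) -/
def pAcc (P : Pot) (R : List ℕ) (kl x : ℕ) (d : PD) (p : ℕ) : Acc :=
  let θ := fd x (96 + p)
  let b := fd x (102 + p)
  let nb := d.lz.any fun A => has R (4 * A + 1)
  let both := d.lz.all fun A => has R (4 * A + 3)
  let bb := bif nb then 0 else bif both then P.KB else b
  let ut := bif nb || both then 0 else b * cntN R d.mz
  (Acc.mk (Nat.ble θ P.K1 && Nat.ble b P.KB) (8 * ut) (2 * θ) (ymkL (2 * ut) d.lz) 0).add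
    (zLoop R kl x (2 * (P.KE + P.K1 - (bb + θ))) d.mz (116 + 4 * p))

def pLoop (P : Pot) (R : List ℕ) (kl x : ℕ) : List PD → ℕ → Acc
  | [], _ => ⟨true, 0, 0, 0, 0⟩
  | d :: ds, p => (pAcc P R kl x d p).add (pLoop P R kl x ds (p + 1))

/-- sides are live: fields `108 + v` -/
def vLoop (x : ℕ) : List ℕ → ℕ → Acc
  | [], _ => ⟨true, 0, 0, 0, 0⟩
  | A :: l, j => (Acc.mk true (fd x j) 0 (ymk (fd x j) A) 0).add (vLoop x l (j + 1))

/-- literals of the region: fields `140 + q` -/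
def lAcc (l y : ℕ) : Acc :=
  bif Nat.beq (l % 4) 0 then ⟨true, y, 0, ymk y (l / 4), 0⟩
  else bif Nat.beq (l % 4) 1 then ⟨true, 2 * y, 0, ymk y (l / 4), 0⟩
  else bif Nat.beq (l % 4) 2 then ⟨true, 0, 0, 0, ymk y (l / 4)⟩
  else ⟨true, 0, y, 0, ymk y (l / 4)⟩

def lLoop (x : ℕ) : List ℕ → ℕ → Acc
  | [], _ => ⟨true, 0, 0, 0, 0⟩
  | l :: R, j => (lAcc l (fd x j)).add (lLoop x R (j + 1))

def accOK (T : ℕ) (GP : ℕ) (a : Acc) : Bool :=
  a.ok && Nat.ble (T + a.lo) a.ga && cmpF a.L (a.R + GP)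

/-- data which depend only on the potential -/
structure Env where
  P : Pot
  T : ℕ
  GP : ℕ
  td : List TD
  pd : List PD
  lv : List ℕ

def leafOK (E : Env) (R : List ℕ) (x : ℕ) : Bool :=
  accOK E.T E.GP (((tLoop E.P R x E.td 0).add (pLoop E.P R (kill R) x E.pd 0)).add
    ((vLoop x E.lv 108).add (lLoop x R 140)))

/-! ## special leaves: case distinctions over the kinds of the new colours of a term -/

inductive CT where
  /-- certificate: fields `0 … 7` multipliers of the term, `8 … 15` live sides, `16 …` literals -/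
  | leaf (x : ℕ)
  /-- side `a`: the kind is `k` (left) or not (right); `k ≠ 2, 3` -/
  | node (a k : ℕ) (l r : CT)
  /-- side `a` of `f` and side `b` of `f'` have a common new colour (left) or not (right) -/
  | nodeC (a b : ℕ) (l r : CT)

def Msk.get (A : Msk) (a : ℕ) : ℕ :=
  bif Nat.beq a 0 then A.a0 else bif Nat.beq a 1 then A.a1 else bif Nat.beq a 2 then A.a2 else A.a3

def Msk.set (A : Msk) (a v : ℕ) : Msk :=
  bif Nat.beq a 0 then ⟨v, A.a1, A.a2, A.a3⟩ else bif Nat.beq a 1 then ⟨A.a0, v, A.a2, A.a3⟩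
  else bif Nat.beq a 2 then ⟨A.a0, A.a1, v, A.a3⟩ else ⟨A.a0, A.a1, A.a2, v⟩

/-- only kind `k` on side `a` -/
def Msk.only (A : Msk) (a k : ℕ) : Msk := A.set a (Nat.land (A.get a) (2 ^ k))

/-- not kind `k` on side `a` -/
def Msk.drop (A : Msk) (a k : ℕ) : Msk := A.set a (Nat.land (A.get a) (4095 - 2 ^ k))

/-- sparse packed weight -/
def spk : List (ℕ × ℕ) → ℕ
  | [] => 0
  | z :: l => z.2 * 2 ^ (40 * z.1) + spk l

def ctLeaf (E : Env) (R : List ℕ) (kl : ℕ) (td : TD) (C w : ℕ) (A : Msk) (x : ℕ) : Bool :=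
  let c := tcOf x 0
  let q := fun a => td.mp.getD a 0
  let f := fun a => isE kl (q a) || !((A.get a).testBit 0)
  let nb := (td.mp.any fun B => has R (4 * B + 1)) ||
    [0, 1, 2, 3].any fun a => !((A.get a).testBit 0) && isN R (q a)
  let ga := c.l00 + c.l01 + c.l10 + c.l11 + (bif f 0 then c.p0 else 0) + (bif f 1 then c.p1 else 0) +
    (bif f 2 then c.p2 else 0) + (bif f 3 then c.p3 else 0)
  let a := (Acc.mk (tOK E.P nb A c) ga (c.m0 + c.m1 + c.m2 + c.m3) (dot (wts E.P A c) td.ms) 0).add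
    ((vLoop x E.lv 8).add (lLoop x R 16))
  a.ok && Nat.ble (C + a.lo) a.ga && cmpF a.L (a.R + w)

def ctOK (E : Env) (R : List ℕ) (kl : ℕ) (td : TD) (C w : ℕ) : CT → Msk → Bool
  | .leaf x, A => ctLeaf E R kl td C w A x
  | .node a k l r, A => Nat.ble a 3 && Nat.ble k 11 && !(Nat.beq k 2) && !(Nat.beq k 3) &&
      ctOK E R kl td C w l (A.only a k) && ctOK E R kl td C w r (A.drop a k)
  | .nodeC a b l r, A => Nat.ble a 1 && Nat.ble b 1 &&
      ctOK E R kl td C w l ((A.only a (2 + b)).only (2 + b) (2 + a)) &&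
      ctOK E R kl td C w r ((A.drop a (2 + b)).drop (2 + b) (2 + a))

/-- a term of a special leaf: `none`: ordinary multipliers; `some`: constant, weights, cases -/
structure ST where
  C : ℕ
  w : List (ℕ × ℕ)
  t : CT

def sAcc (E : Env) (R : List ℕ) (kl x : ℕ) (td : TD) (i : ℕ) : Option ST → Acc
  | none => tAcc E.P R x td i
  | some s => ⟨Nat.beq (sp (fd x (i + 4)) + sp (fd x (i + 5)) + sp (fd x (i + 6)) +
      sp (fd x (i + 7))) 0 && (s.w.all fun z => Nat.ble z.1 255 && Nat.ble z.2 16777215) &&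
      Nat.ble s.w.length 255 && ctOK E R kl td s.C (spk s.w) s.t mAll, s.C, 0, spk s.w, 0⟩

def sLoop (E : Env) (R : List ℕ) (kl x : ℕ) : List TD → ℕ → List (Option ST) → Acc
  | [], _, _ => ⟨true, 0, 0, 0, 0⟩
  | td :: ts, i, [] => (sAcc E R kl x td i none).add (sLoop E R kl x ts (i + 8) [])
  | td :: ts, i, s :: ss => (sAcc E R kl x td i s).add (sLoop E R kl x ts (i + 8) ss)

def specOK (E : Env) (R : List ℕ) (x : ℕ) (ss : List (Option ST)) : Bool :=
  accOK E.T E.GP (((sLoop E R (kill R) x E.td 0 ss).add (pLoop E.P R (kill R) x E.pd 0)).add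
    ((vLoop x E.lv 108).add (lLoop x R 140)))

/-! ## records -/

/-- table of regions -/
inductive Tr where
  | leaf (x : ℕ)
  | node (l r : Tr)

def Tr.get : Tr → ℕ → ℕ
  | .leaf x, _ => x
  | .node l r, n => bif Nat.beq (n % 2) 0 then l.get (n / 2) else r.get (n / 2)

/-- the list of literals (18 bits each) -/
def decR : ℕ → ℕ → List ℕ
  | 0, _ => []
  | n + 1, x => bif Nat.beq x 0 then [] else x % 262144 :: decR n (x / 262144)

def Tr.reg (t : Tr) (i : ℕ) : List ℕ := decR 64 (t.get i)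

def perms4 : List (List ℕ) := [
  [0, 1, 2, 3], [0, 1, 3, 2], [0, 2, 1, 3], [0, 2, 3, 1], [0, 3, 1, 2], [0, 3, 2, 1],
  [1, 0, 2, 3], [1, 0, 3, 2], [1, 2, 0, 3], [1, 2, 3, 0], [1, 3, 0, 2], [1, 3, 2, 0],
  [2, 0, 1, 3], [2, 0, 3, 1], [2, 1, 0, 3], [2, 1, 3, 0], [2, 3, 0, 1], [2, 3, 1, 0],
  [3, 0, 1, 2], [3, 0, 2, 1], [3, 1, 0, 2], [3, 1, 2, 0], [3, 2, 0, 1], [3, 2, 1, 0]]

/-- the group element `g < 384` moves the component `i` to `gp g i` and swaps its sides if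
`ge g i` -/
def gp (g i : ℕ) : ℕ := (perms4.getD (g / 16) []).getD i 0

def ge (g i : ℕ) : Bool := Nat.beq (g / 2 ^ i % 2) 1

/-- swap of the codes 1, 2 in a set of codes -/
def flN (m : ℕ) : ℕ := m % 2 + (m / 2 % 2) * 4 + (m / 4 % 2) * 2 + (m / 8 % 2) * 8

def mapN (g i A : ℕ) : ℕ := (bif ge g i then flN (nib A i) else nib A i) * 16 ^ gp g i

def mapA (g A : ℕ) : ℕ := mapN g 0 A + mapN g 1 A + mapN g 2 A + mapN g 3 A

def mapL (g l : ℕ) : ℕ := 4 * mapA g (l / 4) + l % 4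

/-- is the literal implied by the region `R` (with excluded types `kl`)? -/
def impl (lv R : List ℕ) (kl l : ℕ) : Bool :=
  has R l || bif Nat.beq (l % 4) 0 then has R (l + 1) || has lv (l / 4)
    else bif Nat.beq (l % 4) 1 then false
    else bif Nat.beq (l % 4) 2 then isE kl (l / 4)
    else has R (l - 1) || isE kl (l / 4)

inductive Rc where
  /-- ordinary leaf -/
  | leaf (x : ℕ)
  /-- special leaf -/
  | spec (x : ℕ) (ss : List (Option ST))
  /-- branching over the literal `l` (kind 0 or 1) and its negation `l + 2`; children: number of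
  the record and group element -/
  | br (l j0 g0 j1 g1 : ℕ)

def sub1 (lv Q : List ℕ) (g : ℕ) (R : List ℕ) : Bool :=
  Nat.ble g 383 && (fun kl => Q.all fun q => impl lv R kl (mapL g q)) (kill R)

def rcOK (E : Env) (t : Tr) (i : ℕ) : Rc → Bool
  | .leaf x => leafOK E (t.reg i) x
  | .spec x ss => specOK E (t.reg i) x ss
  | .br l j0 g0 j1 g1 => Nat.ble (l % 4) 1 && Nat.blt j0 i && Nat.blt j1 i &&
      sub1 E.lv (t.reg j0) g0 (l :: t.reg i) && sub1 E.lv (t.reg j1) g1 ((l + 2) :: t.reg i)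

/-- check the records `i, i + 1, …` -/
def chunk (E : Env) (t : Tr) : ℕ → List Rc → Bool
  | _, [] => true
  | i, r :: rs => rcOK E t i r && chunk E t (i + 1) rs

end Pool.Agent.Helper22.QC

/-!
# A faster version of the checker (raw `Nat` operations, literal tables)
-/

namespace Pool.Agent.Helper22.QC.F

open Pool.Agent.Helper22.QC

noncomputable section

/-- potential with explicit fields -/
structure PF where
  KE : ℕ
  K1 : ℕ
  KB : ℕ
  kap : ℕ
  a0 : ℕ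
  a1 : ℕ
  a2 : ℕ
  a3 : ℕ
  a4 : ℕ
  a5 : ℕ
  a6 : ℕ
  b0 : ℕ
  b1 : ℕ
  b2 : ℕ
  b3 : ℕ
  b4 : ℕ
  b5 : ℕ
  b6 : ℕ
  G : List (List ℕ)

def PF.pot (F : PF) : Pot :=
  ⟨F.KE, F.K1, F.KB, F.kap, [F.a0, F.a1, F.a2, F.a3, F.a4, F.a5, F.a6],
    [F.b0, F.b1, F.b2, F.b3, F.b4, F.b5, F.b6], F.G⟩

def fd (x i : ℕ) : ℕ := Nat.mod (Nat.shiftRight x (Nat.mul (nat_lit 24) i)) (nat_lit 16777216)

def sp (v : ℕ) : ℕ := cond (Nat.ble (nat_lit 8388608) v) (nat_lit 0) v

def sm (v : ℕ) : ℕ := Nat.sub v (nat_lit 8388608)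

def mx (a b : ℕ) : ℕ := cond (Nat.ble a b) b a

def w1 (cov c0 c1 p0 m0 p1 m1 lp lm : ℕ) : ℕ :=
  mx cov (mx (Nat.sub (Nat.add (Nat.add c0 p0) lm) (Nat.add m0 lp))
    (Nat.sub (Nat.add (Nat.add c1 p1) lm) (Nat.add m1 lp)))

def tOK (F : PF) (S l00 l01 l10 l11 p0 p1 p2 p3 m0 m1 m2 m3 : ℕ) : Bool :=
  Nat.ble (Nat.add (Nat.add (Nat.add (Nat.sub l00 S) (Nat.sub l01 S)) (Nat.sub l10 S))
    (Nat.sub l11 S)) F.K1 &&
  Nat.ble (Nat.add (Nat.add (Nat.add l00 l01) p0) F.b0) (Nat.add F.a0 m0) &&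
  Nat.ble (Nat.add (Nat.add (Nat.add l10 l11) p1) F.b0) (Nat.add F.a0 m1) &&
  Nat.ble (Nat.add (Nat.add (Nat.add l00 l10) p2) F.b0) (Nat.add F.a0 m2) &&
  Nat.ble (Nat.add (Nat.add (Nat.add l01 l11) p3) F.b0) (Nat.add F.a0 m3) &&
  Nat.ble (Nat.add (Nat.add (Nat.add (Nat.add l00 p0) p2) F.kap) (Nat.mul (nat_lit 2) F.b0))
    (Nat.add (Nat.add (Nat.mul (nat_lit 2) F.a0) m0) m2) &&
  Nat.ble (Nat.add (Nat.add (Nat.add (Nat.add l01 p0) p3) F.kap) (Nat.mul (nat_lit 2) F.b0))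
    (Nat.add (Nat.add (Nat.mul (nat_lit 2) F.a0) m0) m3) &&
  Nat.ble (Nat.add (Nat.add (Nat.add (Nat.add l10 p1) p2) F.kap) (Nat.mul (nat_lit 2) F.b0))
    (Nat.add (Nat.add (Nat.mul (nat_lit 2) F.a0) m1) m2) &&
  Nat.ble (Nat.add (Nat.add (Nat.add (Nat.add l11 p1) p3) F.kap) (Nat.mul (nat_lit 2) F.b0))
    (Nat.add (Nat.add (Nat.mul (nat_lit 2) F.a0) m1) m3)

/-- the class masks of a term, with explicit fields -/
structure MS where
  s0 : ℕ
  s1 : ℕ
  s2 : ℕ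
  s3 : ℕ
  f4 : ℕ
  f5 : ℕ
  f6 : ℕ
  f7 : ℕ
  f8 : ℕ
  f9 : ℕ
  f10 : ℕ
  f11 : ℕ
  g4 : ℕ
  g5 : ℕ
  g6 : ℕ
  g7 : ℕ
  g8 : ℕ
  g9 : ℕ
  g10 : ℕ
  g11 : ℕ
  q0 : ℕ
  q1 : ℕ
  q2 : ℕ
  q3 : ℕ

def MS.td (M : MS) : TD :=
  ⟨[M.q0, M.q1, M.q2, M.q3], [M.s0, M.s1, M.s2, M.s3, M.f4, M.f5, M.f6, M.f7, M.f8, M.f9, M.f10,
    M.f11, M.g4, M.g5, M.g6, M.g7, M.g8, M.g9, M.g10, M.g11]⟩

def tW (F : PF) (M : MS) (l00 l01 l10 l11 p0 p1 p2 p3 m0 m1 m2 m3 : ℕ) : ℕ :=
  Nat.add (Nat.mul l00 M.s0) (Nat.add (Nat.mul l01 M.s1) (Nat.add (Nat.mul l10 M.s2)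
  (Nat.add (Nat.mul l11 M.s3)
  (Nat.add (Nat.mul (w1 (Nat.add l00 l10) l00 l10 p0 m0 p1 m1 F.a1 F.b1) M.f4)
  (Nat.add (Nat.mul (w1 (Nat.add l00 l10) l00 l10 p0 m0 p1 m1 F.a3 F.b3) M.f5)
  (Nat.add (Nat.mul (w1 (Nat.add l01 l11) l01 l11 p0 m0 p1 m1 F.a1 F.b1) M.f6)
  (Nat.add (Nat.mul (w1 (Nat.add l01 l11) l01 l11 p0 m0 p1 m1 F.a3 F.b3) M.f7)
  (Nat.add (Nat.mul (w1 (nat_lit 0) (nat_lit 0) (nat_lit 0) p0 m0 p1 m1 F.a4 F.b4) M.f8)
  (Nat.add (Nat.mul (w1 (nat_lit 0) (nat_lit 0) (nat_lit 0) p0 m0 p1 m1 F.a2 F.b2) M.f9)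
  (Nat.add (Nat.mul (w1 (nat_lit 0) (nat_lit 0) (nat_lit 0) p0 m0 p1 m1 F.a5 F.b5) M.f10)
  (Nat.add (Nat.mul (w1 (nat_lit 0) (nat_lit 0) (nat_lit 0) p0 m0 p1 m1 F.a6 F.b6) M.f11)
  (Nat.add (Nat.mul (w1 (Nat.add l00 l01) l00 l01 p2 m2 p3 m3 F.a1 F.b1) M.g4)
  (Nat.add (Nat.mul (w1 (Nat.add l00 l01) l00 l01 p2 m2 p3 m3 F.a3 F.b3) M.g5)
  (Nat.add (Nat.mul (w1 (Nat.add l10 l11) l10 l11 p2 m2 p3 m3 F.a1 F.b1) M.g6)
  (Nat.add (Nat.mul (w1 (Nat.add l10 l11) l10 l11 p2 m2 p3 m3 F.a3 F.b3) M.g7)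
  (Nat.add (Nat.mul (w1 (nat_lit 0) (nat_lit 0) (nat_lit 0) p2 m2 p3 m3 F.a4 F.b4) M.g8)
  (Nat.add (Nat.mul (w1 (nat_lit 0) (nat_lit 0) (nat_lit 0) p2 m2 p3 m3 F.a2 F.b2) M.g9)
  (Nat.add (Nat.mul (w1 (nat_lit 0) (nat_lit 0) (nat_lit 0) p2 m2 p3 m3 F.a5 F.b5) M.g10)
  (Nat.add (Nat.mul (w1 (nat_lit 0) (nat_lit 0) (nat_lit 0) p2 m2 p3 m3 F.a6 F.b6) M.g11)
    (nat_lit 0))))))))))))))))))))

def has (R : List ℕ) (l : ℕ) : Bool :=
  List.rec (motive := fun _ => Bool) false (fun a _ ih => cond (Nat.beq l a) true ih) R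

def any4 (R : List ℕ) (a b c d : ℕ) : Bool :=
  has R (Nat.add (Nat.mul (nat_lit 4) a) (nat_lit 1)) ||
  (has R (Nat.add (Nat.mul (nat_lit 4) b) (nat_lit 1)) ||
  (has R (Nat.add (Nat.mul (nat_lit 4) c) (nat_lit 1)) ||
  (has R (Nat.add (Nat.mul (nat_lit 4) d) (nat_lit 1)) || false)))

def tA (F : PF) (nb : Bool) (M : MS) (l00 l01 l10 l11 p0 p1 p2 p3 m0 m1 m2 m3 : ℕ) : Acc :=
  ⟨tOK F (cond nb F.KE (Nat.sub F.KE F.KB)) l00 l01 l10 l11 p0 p1 p2 p3 m0 m1 m2 m3,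
    Nat.add (Nat.add (Nat.add l00 l01) l10) l11, Nat.add (Nat.add (Nat.add m0 m1) m2) m3,
    tW F M l00 l01 l10 l11 p0 p1 p2 p3 m0 m1 m2 m3, nat_lit 0⟩

def tAcc (F : PF) (R : List ℕ) (x : ℕ) (M : MS) (i : ℕ) : Acc :=
  tA F (any4 R M.q0 M.q1 M.q2 M.q3) M (fd x i) (fd x (Nat.add i (nat_lit 1)))
    (fd x (Nat.add i (nat_lit 2))) (fd x (Nat.add i (nat_lit 3)))
    (sp (fd x (Nat.add i (nat_lit 4)))) (sp (fd x (Nat.add i (nat_lit 5))))
    (sp (fd x (Nat.add i (nat_lit 6)))) (sp (fd x (Nat.add i (nat_lit 7))))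
    (sm (fd x (Nat.add i (nat_lit 4)))) (sm (fd x (Nat.add i (nat_lit 5))))
    (sm (fd x (Nat.add i (nat_lit 6)))) (sm (fd x (Nat.add i (nat_lit 7))))

def spr (w m : ℕ) : ℕ :=
  Nat.add (Nat.add (Nat.add (Nat.mod m (nat_lit 2))
    (Nat.mul (Nat.mod (Nat.div m (nat_lit 2)) (nat_lit 2)) (Nat.pow (nat_lit 2) w)))
    (Nat.mul (Nat.mod (Nat.div m (nat_lit 4)) (nat_lit 2)) (Nat.pow (nat_lit 2) (Nat.mul (nat_lit 2) w))))
    (Nat.mul (Nat.mod (Nat.div m (nat_lit 8)) (nat_lit 2)) (Nat.pow (nat_lit 2) (Nat.mul (nat_lit 3) w)))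

def spz (w m : ℕ) : ℕ := cond (Nat.beq m (nat_lit 15)) (spr w (nat_lit 15)) (Nat.mod m (nat_lit 2))

def n0 (A : ℕ) : ℕ := Nat.mod A (nat_lit 16)
def n1 (A : ℕ) : ℕ := Nat.mod (Nat.div A (nat_lit 16)) (nat_lit 16)
def n2 (A : ℕ) : ℕ := Nat.mod (Nat.div A (nat_lit 256)) (nat_lit 16)
def n3 (A : ℕ) : ℕ := Nat.mod (Nat.div A (nat_lit 4096)) (nat_lit 16)

def mk (w A : ℕ) : ℕ :=
  Nat.sub (Nat.mul (Nat.mul (Nat.mul (spr w (n0 A)) (spr (Nat.mul (nat_lit 4) w) (n1 A)))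
    (spr (Nat.mul (nat_lit 16) w) (n2 A))) (spr (Nat.mul (nat_lit 64) w) (n3 A)))
  (Nat.mul (Nat.mul (Nat.mul (spz w (n0 A)) (spz (Nat.mul (nat_lit 4) w) (n1 A)))
    (spz (Nat.mul (nat_lit 16) w) (n2 A))) (spz (Nat.mul (nat_lit 64) w) (n3 A)))

def kill (R : List ℕ) : ℕ :=
  List.rec (motive := fun _ => ℕ) (nat_lit 0) (fun l _ ih =>
    cond (Nat.beq (Nat.mod l (nat_lit 4)) (nat_lit 2))
      (Nat.lor (mk (nat_lit 1) (Nat.div l (nat_lit 4))) ih) ih) R

/-- multiplier times mask -/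
def ymk (y m : ℕ) : ℕ := cond (Nat.beq y (nat_lit 0)) (nat_lit 0) (Nat.mul y m)

structure ZS where
  A : ℕ
  m1 : ℕ
  m40 : ℕ
  i1 : ℕ
  i2 : ℕ

def ZS.z (z : ZS) : ℕ × ℕ × ℕ := (z.A, z.i1, z.i2)

def ZS.ok (z : ZS) : Prop := z.m1 = QC.mk 1 z.A ∧ z.m40 = QC.mk 40 z.A

def isN (R : List ℕ) (A : ℕ) : Bool :=
  cond (has R (Nat.mul (nat_lit 4) A)) true (has R (Nat.add (Nat.mul (nat_lit 4) A) (nat_lit 1)))

def zB (R : List ℕ) (kl κ A m1 m40 mu om : ℕ) : Acc :=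
  cond (Nat.beq (Nat.land m1 kl) m1) ⟨true, om, κ, ymk mu m40, nat_lit 0⟩
    (cond (isN R A) ⟨true, mu, nat_lit 0, ymk mu m40, nat_lit 0⟩
      ⟨true, mu, Nat.sub (Nat.add κ mu) om, ymk mu m40, nat_lit 0⟩)

def zAcc (R : List ℕ) (kl x κ : ℕ) (z : ZS) (j : ℕ) : Acc :=
  zB R kl κ z.A z.m1 z.m40 (fd x j) (Nat.add (sp (fd x z.i1)) (sp (fd x z.i2)))

def add (a b : Acc) : Acc :=
  ⟨cond a.ok b.ok false, Nat.add a.ga b.ga, Nat.add a.lo b.lo, Nat.add a.L b.L, Nat.add a.R b.R⟩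

def zLoop (R : List ℕ) (kl x κ : ℕ) (zs : List ZS) : ℕ → Acc :=
  List.rec (motive := fun _ => ℕ → Acc) (fun _ => ⟨true, nat_lit 0, nat_lit 0, nat_lit 0, nat_lit 0⟩)
    (fun z _ ih j => add (zAcc R kl x κ z j) (ih (Nat.add j (nat_lit 1)))) zs

def cntN (R : List ℕ) (zs : List ZS) : ℕ :=
  List.rec (motive := fun _ => ℕ) (nat_lit 0)
    (fun z _ ih => Nat.add (cond (isN R z.A) (nat_lit 0) (nat_lit 1)) ih) zs

structure LS where
  A : ℕ
  m40 : ℕ

def LS.ok (z : LS) : Prop := z.m40 = QC.mk 40 z.A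

def ymkL (y : ℕ) (l : List LS) : ℕ :=
  List.rec (motive := fun _ => ℕ) (nat_lit 0) (fun z _ ih => Nat.add (ymk y z.m40) ih) l

def anyL (R : List ℕ) (k : ℕ) (l : List LS) : Bool :=
  List.rec (motive := fun _ => Bool) false
    (fun z _ ih => cond (has R (Nat.add (Nat.mul (nat_lit 4) z.A) k)) true ih) l

def allL (R : List ℕ) (k : ℕ) (l : List LS) : Bool :=
  List.rec (motive := fun _ => Bool) true
    (fun z _ ih => cond (has R (Nat.add (Nat.mul (nat_lit 4) z.A) k)) ih false) l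

structure PS where
  zs : List ZS
  ls : List LS

def PS.pd (d : PS) : PD := ⟨d.zs.map ZS.z, d.ls.map LS.A⟩

def PS.ok (d : PS) : Prop := (∀ z ∈ d.zs, z.ok) ∧ ∀ z ∈ d.ls, z.ok

def pB (F : PF) (R : List ℕ) (kl x : ℕ) (d : PS) (θ b bb ut j : ℕ) : Acc :=
  add ⟨cond (Nat.ble θ F.K1) (Nat.ble b F.KB) false, Nat.mul (nat_lit 8) ut, Nat.mul (nat_lit 2) θ,
    ymkL (Nat.mul (nat_lit 2) ut) d.ls, nat_lit 0⟩
    (zLoop R kl x (Nat.mul (nat_lit 2) (Nat.sub (Nat.add F.KE F.K1) (Nat.add bb θ))) d.zs j)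

def pA (F : PF) (R : List ℕ) (kl x : ℕ) (d : PS) (θ b j : ℕ) (nb both : Bool) : Acc :=
  pB F R kl x d θ b (cond nb (nat_lit 0) (cond both F.KB b))
    (cond nb (nat_lit 0) (cond both (nat_lit 0) (Nat.mul b (cntN R d.zs)))) j

def pAcc (F : PF) (R : List ℕ) (kl x : ℕ) (d : PS) (p : ℕ) : Acc :=
  pA F R kl x d (fd x (Nat.add (nat_lit 96) p)) (fd x (Nat.add (nat_lit 102) p))
    (Nat.add (nat_lit 116) (Nat.mul (nat_lit 4) p)) (anyL R (nat_lit 1) d.ls)
    (allL R (nat_lit 3) d.ls)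

def tLoop (F : PF) (R : List ℕ) (x : ℕ) (l : List MS) : ℕ → Acc :=
  List.rec (motive := fun _ => ℕ → Acc) (fun _ => ⟨true, nat_lit 0, nat_lit 0, nat_lit 0, nat_lit 0⟩)
    (fun M _ ih i => add (tAcc F R x M i) (ih (Nat.add i (nat_lit 8)))) l

def pLoop (F : PF) (R : List ℕ) (kl x : ℕ) (l : List PS) : ℕ → Acc :=
  List.rec (motive := fun _ => ℕ → Acc) (fun _ => ⟨true, nat_lit 0, nat_lit 0, nat_lit 0, nat_lit 0⟩)
    (fun d _ ih i => add (pAcc F R kl x d i) (ih (Nat.add i (nat_lit 1)))) l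

def vLoop (x : ℕ) (l : List LS) : ℕ → Acc :=
  List.rec (motive := fun _ => ℕ → Acc) (fun _ => ⟨true, nat_lit 0, nat_lit 0, nat_lit 0, nat_lit 0⟩)
    (fun z _ ih j => add ⟨true, fd x j, nat_lit 0, ymk (fd x j) z.m40, nat_lit 0⟩
      (ih (Nat.add j (nat_lit 1)))) l

def lAcc (l y : ℕ) : Acc :=
  cond (Nat.beq (Nat.mod l (nat_lit 4)) (nat_lit 0))
    ⟨true, y, nat_lit 0, ymk y (mk (nat_lit 40) (Nat.div l (nat_lit 4))), nat_lit 0⟩
  (cond (Nat.beq (Nat.mod l (nat_lit 4)) (nat_lit 1))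
    ⟨true, Nat.mul (nat_lit 2) y, nat_lit 0, ymk y (mk (nat_lit 40) (Nat.div l (nat_lit 4))),
      nat_lit 0⟩
  (cond (Nat.beq (Nat.mod l (nat_lit 4)) (nat_lit 2))
    ⟨true, nat_lit 0, nat_lit 0, nat_lit 0, ymk y (mk (nat_lit 40) (Nat.div l (nat_lit 4)))⟩
    ⟨true, nat_lit 0, y, nat_lit 0, ymk y (mk (nat_lit 40) (Nat.div l (nat_lit 4)))⟩))

def lLoop (x : ℕ) (R : List ℕ) : ℕ → Acc :=
  List.rec (motive := fun _ => ℕ → Acc) (fun _ => ⟨true, nat_lit 0, nat_lit 0, nat_lit 0, nat_lit 0⟩)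
    (fun l _ ih j => add (lAcc l (fd x j)) (ih (Nat.add j (nat_lit 1)))) R

structure FE where
  P : PF
  T : ℕ
  GP : ℕ
  td : List MS
  pd : List PS
  lv : List LS

def FE.env (E : FE) : Env := ⟨E.P.pot, E.T, E.GP, E.td.map MS.td, E.pd.map PS.pd, E.lv.map LS.A⟩

def FE.ok (E : FE) : Prop := (∀ d ∈ E.pd, d.ok) ∧ ∀ z ∈ E.lv, z.ok

def cmpF (x y : ℕ) : Bool := Nat.beq (Nat.land (Nat.sub (Nat.add y H40) x) H40) H40

def accOK (T GP : ℕ) (a : Acc) : Bool :=
  cond a.ok (cond (Nat.ble (Nat.add T a.lo) a.ga) (cmpF a.L (Nat.add a.R GP)) false) false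

def leafOK (E : FE) (R : List ℕ) (x : ℕ) : Bool :=
  accOK E.T E.GP (add (add (tLoop E.P R x E.td (nat_lit 0)) (pLoop E.P R (kill R) x E.pd (nat_lit 0)))
    (add (vLoop x E.lv (nat_lit 108)) (lLoop x R (nat_lit 140))))

/-- permutations, two bits per value -/
def PT : ℕ := nat_lit 0x1b4b278763931e4e36c672d22d8d39c9b1e16c9c78d8b4e4

/-- table of the swap on sets of codes -/
def FT : ℕ := nat_lit 0xfebadc9876325410fedcba9876543210

def gp (g i : ℕ) : ℕ :=
  Nat.mod (Nat.shiftRight PT (Nat.add (Nat.mul (nat_lit 8) (Nat.div g (nat_lit 16)))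
    (Nat.mul (nat_lit 2) i))) (nat_lit 4)

def mapN (g i n : ℕ) : ℕ :=
  Nat.mul (Nat.mod (Nat.shiftRight FT (Nat.mul (nat_lit 4) (Nat.add (Nat.mul (nat_lit 16)
    (Nat.mod (Nat.div g (Nat.pow (nat_lit 2) i)) (nat_lit 2))) n))) (nat_lit 16))
    (Nat.pow (nat_lit 16) (gp g i))

def mapA (g A : ℕ) : ℕ :=
  Nat.add (Nat.add (Nat.add (mapN g (nat_lit 0) (n0 A)) (mapN g (nat_lit 1) (n1 A)))
    (mapN g (nat_lit 2) (n2 A))) (mapN g (nat_lit 3) (n3 A))

def mapL (g l : ℕ) : ℕ :=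
  Nat.add (Nat.mul (nat_lit 4) (mapA g (Nat.div l (nat_lit 4)))) (Nat.mod l (nat_lit 4))

def isE (kl A : ℕ) : Bool :=
  (fun m => Nat.beq (Nat.land m kl) m) (mk (nat_lit 1) A)

def impl (lv R : List ℕ) (kl l : ℕ) : Bool :=
  cond (has R l) true
    (cond (Nat.beq (Nat.mod l (nat_lit 4)) (nat_lit 0))
      (cond (has R (Nat.add l (nat_lit 1))) true (has lv (Nat.div l (nat_lit 4))))
      (cond (Nat.beq (Nat.mod l (nat_lit 4)) (nat_lit 1)) false
        (cond (Nat.beq (Nat.mod l (nat_lit 4)) (nat_lit 2)) (isE kl (Nat.div l (nat_lit 4)))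
          (cond (has R (Nat.sub l (nat_lit 1))) true (isE kl (Nat.div l (nat_lit 4)))))))

def subL (lv R : List ℕ) (kl g : ℕ) (Q : List ℕ) : Bool :=
  List.rec (motive := fun _ => Bool) true
    (fun q _ ih => cond (impl lv R kl (mapL g q)) ih false) Q

def sub1 (lv Q : List ℕ) (g : ℕ) (R : List ℕ) : Bool :=
  cond (Nat.ble g (nat_lit 383)) (subL lv R (kill R) g Q) false

/-- the list of literals (18 bits each) -/
def decR (n : ℕ) : ℕ → List ℕ :=
  Nat.rec (motive := fun _ => ℕ → List ℕ) (fun _ => [])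
    (fun _ ih x => cond (Nat.beq x (nat_lit 0)) []
      (Nat.mod x (nat_lit 262144) :: ih (Nat.div x (nat_lit 262144)))) n

def get (t : Tr) : ℕ → ℕ :=
  Tr.rec (motive := fun _ => ℕ → ℕ) (fun x _ => x)
    (fun _ _ l r n => cond (Nat.beq (Nat.mod n (nat_lit 2)) (nat_lit 0)) (l (Nat.div n (nat_lit 2)))
      (r (Nat.div n (nat_lit 2)))) t

def reg (t : Tr) (i : ℕ) : List ℕ := decR (nat_lit 64) (get t i)

def brOK (lv : List ℕ) (t : Tr) (R : List ℕ) (l j0 g0 j1 g1 : ℕ) : Bool :=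
  cond (sub1 lv (reg t j0) g0 (l :: R)) (sub1 lv (reg t j1) g1 (Nat.add l (nat_lit 2) :: R)) false

def rcOK (E : FE) (lv : List ℕ) (t : Tr) (i : ℕ) (r : Rc) : Bool :=
  Rc.casesOn (motive := fun _ => Bool) r (fun x => leafOK E (reg t i) x)
    (fun x ss => QC.specOK E.env (reg t i) x ss)
    (fun l j0 g0 j1 g1 => cond (Nat.ble (Nat.mod l (nat_lit 4)) (nat_lit 1))
      (cond (Nat.ble (Nat.succ j0) i) (cond (Nat.ble (Nat.succ j1) i)
        (brOK lv t (reg t i) l j0 g0 j1 g1) false) false) false)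

def chunk (E : FE) (lv : List ℕ) (t : Tr) (rs : List Rc) : ℕ → Bool :=
  List.rec (motive := fun _ => ℕ → Bool) (fun _ => true)
    (fun r _ ih i => cond (rcOK E lv t i r) (ih (Nat.succ i)) false) rs

end

end Pool.Agent.Helper22.QC.F
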