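import Pool.Agent.Helper2.OD.Iface
import Pool.Agent.Helper22.QC.Core

/-!
# Checkable certificates for the four-sample inequality: definitions

Codes of a colour in a component: `0` free, `1` live on side `false`, `2` live on side `true`,
`3` dead.  The type of a colour in four components is `Σ 4^i code_i < 256`.
-/

namespace Pool.Agent.Helper22.QC

open Finset
open Pool.Agent.Helper2.OC

/-! ## the potential -/

def cod (p : Comp) (c : ℕ) : ℕ := (if c ∈ p false then 1 else 0) + (if c ∈ p true then 2 else 0)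

/-- swap of the two sides on codes -/
def swc (x : ℕ) : ℕ := x / 2 + 2 * (x % 2)

def swo (o : Bool) (x : ℕ) : ℕ := if o then swc x else x

/-- class of an (oriented) pair of codes -/
def lamCls (x y : ℕ) : ℕ :=
  if x = 0 then (if y = 0 then 0 else if y = 3 then 2 else 1)
  else if y = 0 then (if x = 3 then 2 else 1)
  else if x = 3 then (if y = 3 then 6 else 5)
  else if y = 3 then 5
  else if x = y then 3 else 4

def lamZ (P : Pot) (r t : Comp) (o : Bool) (c : ℕ) : ℤ :=
  (P.lp.getD (lamCls (cod r c) (swo o (cod t c))) 0 : ℤ) -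
    (P.lm.getD (lamCls (cod r c) (swo o (cod t c))) 0 : ℤ)

/-- colours which are private to the union of side `σ` of `p` and side `ρ` of `q` -/
def slot (p q : Comp) (σ ρ : Bool) : Finset ℕ := (p σ ∪ q ρ) \ (p (!σ) ∪ q (!ρ))

/-- number of pairs of sides without a private colour -/
def emp (p q : Comp) : ℕ := ∑ σ : Bool, ∑ ρ : Bool, if slot p q σ ρ = ∅ then 1 else 0

/-- every side has at most one private colour -/
def Mini (p : Comp) : Prop := ∀ σ : Bool, (p σ \ p (!σ)).card ≤ 1

instance (p : Comp) : Decidable (Mini p) := by unfold Mini; infer_instance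

def KK (P : Pot) (p q : Comp) : ℤ :=
  (P.KE : ℤ) * emp p q + (if emp p q = 0 then 0 else (P.K1 : ℤ)) -
    (if Mini p ∧ Mini q then (P.KB : ℤ) * emp p q else 0)

/-- value of a pair of fixes `f` of `p, q` (orientation `o`) and `f'` of `r, t` (orientation `o'`) -/
def valZ (P : Pot) (p q r t : Comp) (o o' : Bool) (f f' : Comp) : ℤ :=
  KK P f f' + ∑ c ∈ nw (mrg p q o) f, lamZ P r t o' c +
    ∑ c ∈ nw (mrg r t o') f', lamZ P p q o c -
    P.kap * ((nw (mrg p q o) f ∩ nw (mrg r t o') f').card : ℤ)

/-! ## types of colours -/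

def typ (s : Fin 4 → Comp) (c : ℕ) : ℕ :=
  cod (s 0) c + 4 * cod (s 1) c + 16 * cod (s 2) c + 64 * cod (s 3) c

def dig (t i : ℕ) : ℕ := t / 4 ^ i % 4

/-- all used colours -/
def U (s : Fin 4 → Comp) : Finset ℕ := univ.biUnion fun i => s i false ∪ s i true

/-- number of live entries of a type -/
def nL (t : ℕ) : ℕ :=
  ((List.range 4).map fun i => if dig t i = 1 ∨ dig t i = 2 then 1 else 0).sum

/-- number of dead entries of a type -/
def nD (t : ℕ) : ℕ := ((List.range 4).map fun i => if dig t i = 3 then 1 else 0).sum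

def gT (P : Pot) (t : ℕ) : ℕ := (P.G.getD (nL t) []).getD (nD t) 0

/-! ## the four-sample inequality for given states -/

/-- the three pairings -/
def pr : Fin 3 → Fin 4 → Fin 4 := ![![0, 1, 2, 3], ![0, 2, 1, 3], ![0, 3, 1, 2]]

/-- `F` consists of admissible fixes for the twelve (pairing, orientation, orientation) -/
def Fam (s : Fin 4 → Comp) (F : Fin 3 → Bool → Bool → Comp × Comp) : Prop :=
  ∀ i o o', Fix1 (mrg (s (pr i 0)) (s (pr i 1)) o) (F i o o').1 ∧
    Fix1 (mrg (s (pr i 2)) (s (pr i 3)) o') (F i o o').2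

def Good (P : Pot) (T : ℕ) (s : Fin 4 → Comp) : Prop :=
  ∀ F : Fin 3 → Bool → Bool → Comp × Comp, Fam s F →
    (T : ℤ) + 2 * ∑ i : Fin 4, ∑ j : Fin 4, (if i < j then KK P (s i) (s j) else 0) ≤
      ∑ c ∈ U s, (gT P (typ s c) : ℤ) +
      ∑ i : Fin 3, ∑ o : Bool, ∑ o' : Bool,
        valZ P (s (pr i 0)) (s (pr i 1)) (s (pr i 2)) (s (pr i 3)) o o' (F i o o').1 (F i o o').2

/-! ## patterns, literals, regions -/

/-- `t` matches the pattern: every digit is allowed and at some constrained place it is not free -/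
def inP (A t : ℕ) : Bool :=
  (List.range 4).all (fun i => (nib A i).testBit (dig t i)) &&
    (List.range 4).any (fun i => nib A i != 15 && dig t i != 0)

def cnt (s : Fin 4 → Comp) (A : ℕ) : ℕ := ((U s).filter fun c => inP A (typ s c) = true).card

/-- literal `4 A + k`: at least one (`k = 0`), at least two (`1`), none (`2`), at most one (`3`)
colour matches `A` -/
def satL (s : Fin 4 → Comp) (l : ℕ) : Prop :=
  (l % 4 = 0 → 1 ≤ cnt s (l / 4)) ∧ (l % 4 = 1 → 2 ≤ cnt s (l / 4)) ∧
    (l % 4 = 2 → cnt s (l / 4) = 0) ∧ (l % 4 = 3 → cnt s (l / 4) ≤ 1)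

/-- the inequality holds for all states in the region -/
def Holds (P : Pot) (T : ℕ) (R : List ℕ) : Prop :=
  ∀ s : Fin 4 → Comp, (∀ i, (s i).Ok) → (∀ l ∈ R, satL s l) → Good P T s

end Pool.Agent.Helper22.QC
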