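import Pool.Agent.Helper22.QC.Check

/-!
# A faster version of the checker (raw `Nat` operations, literal tables): correctness
-/

namespace Pool.Agent.Helper22.QC.F

open Pool.Agent.Helper22.QC

noncomputable section

theorem has_eq (R : List ℕ) (l : ℕ) : has R l = QC.has R l := by
  induction R with
  | nil => rfl
  | cons a R ih =>
    have h : has (a :: R) l = cond (Nat.beq l a) true (has R l) := rfl
    have h' : QC.has (a :: R) l = (Nat.beq l a || QC.has R l) := rfl
    rw [h, h', ih]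
    cases Nat.beq l a <;> rfl

theorem tb1 : Nat.testBit 4095 1 = true := by decide
theorem tb2 : Nat.testBit 4095 2 = true := by decide
theorem tb3 : Nat.testBit 4095 3 = true := by decide
theorem tb4 : Nat.testBit 4095 4 = true := by decide
theorem tb5 : Nat.testBit 4095 5 = true := by decide
theorem tb6 : Nat.testBit 4095 6 = true := by decide
theorem tb7 : Nat.testBit 4095 7 = true := by decide
theorem tb8 : Nat.testBit 4095 8 = true := by decide
theorem tb9 : Nat.testBit 4095 9 = true := by decide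
theorem tb10 : Nat.testBit 4095 10 = true := by decide
theorem tb11 : Nat.testBit 4095 11 = true := by decide

theorem tOK_eq (F : PF) (nb : Bool) (c : TC) :
    QC.tOK F.pot nb mAll c =
      tOK F (cond nb F.KE (Nat.sub F.KE F.KB)) c.l00 c.l01 c.l10 c.l11 c.p0 c.p1 c.p2 c.p3
        c.m0 c.m1 c.m2 c.m3 := by
  unfold QC.tOK mAll
  simp only [tb1, tb2, tb3, Bool.not_true, Bool.false_or]
  rfl

theorem fd_eq (x i : ℕ) : QC.fd x i = fd x i := rfl

theorem sp_eq (x : ℕ) : QC.sp x = sp x := rfl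

theorem sm_eq (x : ℕ) : QC.sm x = sm x := rfl

theorem wOne_eq (cov c0 c1 p0 m0 p1 m1 lp lm : ℕ) :
    wOne cov c0 c1 p0 m0 p1 m1 lp lm true true = w1 cov c0 c1 p0 m0 p1 m1 lp lm := rfl

theorem dot_eq (F : PF) (M : MS) (c : TC) :
    dot (wts F.pot mAll c) M.td.ms =
      tW F M c.l00 c.l01 c.l10 c.l11 c.p0 c.p1 c.p2 c.p3 c.m0 c.m1 c.m2 c.m3 := by
  unfold QC.wts mAll
  simp only [tb4, tb5, tb6, tb7, tb8, tb9, tb10, tb11, wOne_eq]
  rfl

theorem tAcc_eq (F : PF) (R : List ℕ) (x : ℕ) (M : MS) (i : ℕ) :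
    tAcc F R x M i = QC.tAcc F.pot R x M.td i := by
  have h : any4 R M.q0 M.q1 M.q2 M.q3 = (M.td.mp.any fun A => QC.has R (4 * A + 1)) := by
    unfold any4
    simp only [has_eq]
    rfl
  unfold QC.tAcc
  simp only [tOK_eq, dot_eq, ← h, QC.tcOf, fd_eq, sp_eq, sm_eq]
  rfl

/-! ## packed patterns -/

theorem spr_eq (w m : ℕ) : QC.spr w m = spr w m := rfl

theorem spz_eq (w m : ℕ) : QC.spz w m = spz w m := rfl

theorem n0_eq (A : ℕ) : nib A 0 = n0 A := by
  show A / 16 ^ 0 % 16 = A % 16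
  norm_num

theorem n1_eq (A : ℕ) : nib A 1 = n1 A := by
  show A / 16 ^ 1 % 16 = A / 16 % 16
  norm_num

theorem n2_eq (A : ℕ) : nib A 2 = n2 A := by
  show A / 16 ^ 2 % 16 = A / 256 % 16
  norm_num

theorem n3_eq (A : ℕ) : nib A 3 = n3 A := by
  show A / 16 ^ 3 % 16 = A / 4096 % 16
  norm_num

theorem mk_eq (w A : ℕ) : QC.mk w A = mk w A := by
  unfold QC.mk
  rw [n0_eq, n1_eq, n2_eq, n3_eq]
  rfl

theorem kill_eq (R : List ℕ) : QC.kill R = kill R := by
  induction R with
  | nil => rfl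
  | cons l R ih =>
    have h : kill (l :: R) = cond (Nat.beq (l % 4) 2) (Nat.lor (mk 1 (l / 4)) (kill R)) (kill R) :=
      rfl
    have h' : QC.kill (l :: R) =
      cond (Nat.beq (l % 4) 2) (Nat.lor (QC.mk 1 (l / 4)) (QC.kill R)) (QC.kill R) := rfl
    rw [h, h', ih, mk_eq]

theorem ymk_eq (y A m : ℕ) (h : m = QC.mk 40 A) : QC.ymk y A = ymk y m := by
  subst h
  rfl

theorem ymk_eq' (y A : ℕ) : QC.ymk y A = ymk y (mk (nat_lit 40) A) := by
  rw [← ymk_eq]
  rw [mk_eq]

/-! ## pairs -/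

theorem isN_eq (R : List ℕ) (A : ℕ) : QC.isN R A = isN R A := by
  have h' : QC.isN R A = (QC.has R (4 * A) || QC.has R (4 * A + 1)) := rfl
  have h : isN R A = cond (has R (4 * A)) true (has R (4 * A + 1)) := rfl
  rw [h, h', has_eq, has_eq]
  cases QC.has R (4 * A) <;> rfl

theorem zAcc_eq (R : List ℕ) (kl x κ : ℕ) (z : ZS) (hz : z.ok) (j : ℕ) :
    QC.zAcc R kl x κ z.z j = zAcc R kl x κ z j := by
  obtain ⟨h1, h2⟩ := hz
  unfold QC.zAcc zAcc zB QC.isE
  simp only [ZS.z, ymk_eq _ _ _ h2, isN_eq, ← h1]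
  rfl

theorem add_eq (a b : Acc) : a.add b = add a b := by
  cases a with
  | mk ok _ _ _ _ => cases ok <;> rfl

theorem zLoop_eq (R : List ℕ) (kl x κ : ℕ) (zs : List ZS) (hz : ∀ z ∈ zs, z.ok) (j : ℕ) :
    QC.zLoop R kl x κ (zs.map ZS.z) j = zLoop R kl x κ zs j := by
  induction zs generalizing j with
  | nil => rfl
  | cons z zs ih =>
    have h : zLoop R kl x κ (z :: zs) j = add (zAcc R kl x κ z j) (zLoop R kl x κ zs (j + 1)) := rfl
    have h' : QC.zLoop R kl x κ ((z :: zs).map ZS.z) j =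
      (QC.zAcc R kl x κ z.z j).add (QC.zLoop R kl x κ (zs.map ZS.z) (j + 1)) := rfl
    rw [h, h', ih (fun z' hz' => hz z' (List.mem_cons_of_mem _ hz')), add_eq,
      zAcc_eq _ _ _ _ _ (hz z List.mem_cons_self)]

theorem cntN_eq (R : List ℕ) (zs : List ZS) : QC.cntN R (zs.map ZS.z) = cntN R zs := by
  induction zs with
  | nil => rfl
  | cons z zs ih =>
    have h : cntN R (z :: zs) = (cond (isN R z.A) 0 1) + cntN R zs := rfl
    have h' : QC.cntN R ((z :: zs).map ZS.z) =
      (cond (QC.isN R z.A) 0 1) + QC.cntN R (zs.map ZS.z) := rfl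
    rw [h, h', ih, isN_eq]

theorem ymkL_eq (y : ℕ) (l : List LS) (hl : ∀ z ∈ l, z.ok) :
    QC.ymkL y (l.map LS.A) = ymkL y l := by
  induction l with
  | nil => rfl
  | cons z l ih =>
    have h : ymkL y (z :: l) = ymk y z.m40 + ymkL y l := rfl
    have h' : QC.ymkL y ((z :: l).map LS.A) = QC.ymk y z.A + QC.ymkL y (l.map LS.A) := rfl
    rw [h, h', ih (fun z' hz' => hl z' (List.mem_cons_of_mem _ hz')),
      ymk_eq _ _ _ (hl z List.mem_cons_self)]

theorem anyL_eq (R : List ℕ) (l : List LS) :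
    ((l.map LS.A).any fun A => QC.has R (4 * A + 1)) = anyL R 1 l := by
  induction l with
  | nil => rfl
  | cons z l ih =>
    have h : anyL R 1 (z :: l) = cond (has R (4 * z.A + 1)) true (anyL R 1 l) := rfl
    rw [List.map_cons, List.any_cons, ih, h, has_eq]
    cases QC.has R (4 * z.A + 1) <;> rfl

theorem allL_eq (R : List ℕ) (l : List LS) :
    ((l.map LS.A).all fun A => QC.has R (4 * A + 3)) = allL R 3 l := by
  induction l with
  | nil => rfl
  | cons z l ih =>
    have h : allL R 3 (z :: l) = cond (has R (4 * z.A + 3)) (allL R 3 l) false := rfl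
    rw [List.map_cons, List.all_cons, ih, h, has_eq]
    cases QC.has R (4 * z.A + 3) <;> rfl

theorem pAcc_eq (F : PF) (R : List ℕ) (kl x : ℕ) (d : PS) (hd : d.ok) (p : ℕ) :
    QC.pAcc F.pot R kl x d.pd p = pAcc F R kl x d p := by
  unfold QC.pAcc
  simp only [PS.pd, anyL_eq, allL_eq, cntN_eq, zLoop_eq _ _ _ _ _ hd.1, ymkL_eq _ _ hd.2, add_eq,
    fd_eq]
  have e : pAcc F R kl x d p = pA F R kl x d (fd x (96 + p)) (fd x (102 + p)) (116 + 4 * p)
    (anyL R 1 d.ls) (allL R 3 d.ls) := rfl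
  rw [e]
  unfold pA pB
  have e1 : (Nat.ble (fd x (96 + p)) F.pot.K1 && Nat.ble (fd x (102 + p)) F.pot.KB) =
    cond (Nat.ble (fd x (96 + p)) F.K1) (Nat.ble (fd x (102 + p)) F.KB) false := by
    show (Nat.ble (fd x (96 + p)) F.K1 && Nat.ble (fd x (102 + p)) F.KB) = _
    cases Nat.ble (fd x (96 + p)) F.K1 <;> rfl
  rw [e1]
  cases anyL R 1 d.ls <;> cases allL R 3 d.ls <;> rfl

theorem tLoop_eq (F : PF) (R : List ℕ) (x : ℕ) (l : List MS) (i : ℕ) :
    QC.tLoop F.pot R x (l.map MS.td) i = tLoop F R x l i := by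
  induction l generalizing i with
  | nil => rfl
  | cons M l ih =>
    have h : tLoop F R x (M :: l) i = add (tAcc F R x M i) (tLoop F R x l (i + 8)) := rfl
    have h' : QC.tLoop F.pot R x ((M :: l).map MS.td) i =
      (QC.tAcc F.pot R x M.td i).add (QC.tLoop F.pot R x (l.map MS.td) (i + 8)) := rfl
    rw [h, h', ih, add_eq, tAcc_eq]

theorem pLoop_eq (F : PF) (R : List ℕ) (kl x : ℕ) (l : List PS) (hl : ∀ d ∈ l, d.ok) (i : ℕ) :
    QC.pLoop F.pot R kl x (l.map PS.pd) i = pLoop F R kl x l i := by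
  induction l generalizing i with
  | nil => rfl
  | cons d l ih =>
    have h : pLoop F R kl x (d :: l) i = add (pAcc F R kl x d i) (pLoop F R kl x l (i + 1)) := rfl
    have h' : QC.pLoop F.pot R kl x ((d :: l).map PS.pd) i =
      (QC.pAcc F.pot R kl x d.pd i).add (QC.pLoop F.pot R kl x (l.map PS.pd) (i + 1)) := rfl
    rw [h, h', ih (fun z' hz' => hl z' (List.mem_cons_of_mem _ hz')), add_eq,
      pAcc_eq _ _ _ _ _ (hl d List.mem_cons_self)]

theorem vLoop_eq (x : ℕ) (l : List LS) (hl : ∀ z ∈ l, z.ok) (j : ℕ) :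
    QC.vLoop x (l.map LS.A) j = vLoop x l j := by
  induction l generalizing j with
  | nil => rfl
  | cons z l ih =>
    have h : vLoop x (z :: l) j =
      add ⟨true, fd x j, 0, ymk (fd x j) z.m40, 0⟩ (vLoop x l (j + 1)) := rfl
    have h' : QC.vLoop x ((z :: l).map LS.A) j =
      (Acc.mk true (QC.fd x j) 0 (QC.ymk (QC.fd x j) z.A) 0).add
        (QC.vLoop x (l.map LS.A) (j + 1)) := rfl
    rw [h, h', ih (fun z' hz' => hl z' (List.mem_cons_of_mem _ hz')), add_eq,
      ymk_eq _ _ _ (hl z List.mem_cons_self)]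
    rfl

theorem lAcc_eq (l y : ℕ) : QC.lAcc l y = lAcc l y := by
  unfold QC.lAcc
  simp only [ymk_eq']
  rfl

theorem lLoop_eq (x : ℕ) (R : List ℕ) (j : ℕ) : QC.lLoop x R j = lLoop x R j := by
  induction R generalizing j with
  | nil => rfl
  | cons l R ih =>
    have h : lLoop x (l :: R) j = add (lAcc l (fd x j)) (lLoop x R (j + 1)) := rfl
    have h' : QC.lLoop x (l :: R) j = (QC.lAcc l (QC.fd x j)).add (QC.lLoop x R (j + 1)) := rfl
    rw [h, h', ih, add_eq, lAcc_eq]
    rfl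

theorem cmpF_eq (x y : ℕ) : QC.cmpF x y = cmpF x y := by
  unfold QC.cmpF cmpF
  generalize H40 = H
  rfl

theorem accOK_eq (T GP : ℕ) (a : Acc) : QC.accOK T GP a = accOK T GP a := by
  unfold QC.accOK accOK
  rw [cmpF_eq]
  have key : ∀ (o b c : Bool), (o && b && c) = cond o (cond b c false) false := by decide
  exact key _ _ _

theorem leafOK_eq (E : FE) (hE : E.ok) (R : List ℕ) (x : ℕ) :
    QC.leafOK E.env R x = leafOK E R x := by
  unfold QC.leafOK
  simp only [FE.env, tLoop_eq, pLoop_eq _ _ _ _ _ hE.1, vLoop_eq _ _ hE.2, lLoop_eq, add_eq, kill_eq,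
    accOK_eq]
  rfl

/-! ## branchings -/

theorem gp_eq (g i : ℕ) (hg : g < 384) (hi : i < 4) : QC.gp g i = gp g i := by
  have h : ∀ p < 24, ∀ i < 4, (perms4.getD p []).getD i 0 = PT >>> (8 * p + 2 * i) % 4 := by
    decide
  exact h (g / 16) (by omega) i hi

theorem mapN_eq (g i A : ℕ) (hg : g < 384) (hi : i < 4) : QC.mapN g i A = mapN g i (nib A i) := by
  have h : ∀ e < 2, ∀ n < 16, (cond (Nat.beq e 1) (flN n) n) = FT >>> (4 * (16 * e + n)) % 16 := by
    decide
  have h1 := h (g / 2 ^ i % 2) (Nat.mod_lt _ (by norm_num)) (nib A i)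
    (Nat.mod_lt _ (by norm_num))
  have e1 : QC.mapN g i A = (cond (Nat.beq (g / 2 ^ i % 2) 1) (flN (nib A i)) (nib A i)) *
    16 ^ QC.gp g i := rfl
  rw [e1, h1, gp_eq g i hg hi]
  rfl

theorem mapA_eq (g A : ℕ) (hg : g < 384) : QC.mapA g A = mapA g A := by
  unfold QC.mapA
  rw [mapN_eq g 0 A hg (by norm_num), mapN_eq g 1 A hg (by norm_num),
    mapN_eq g 2 A hg (by norm_num), mapN_eq g 3 A hg (by norm_num), n0_eq, n1_eq, n2_eq, n3_eq]
  rfl

theorem mapL_eq (g l : ℕ) (hg : g < 384) : QC.mapL g l = mapL g l := by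
  have h : QC.mapL g l = 4 * QC.mapA g (l / 4) + l % 4 := rfl
  rw [h, mapA_eq _ _ hg]
  rfl

theorem isE_eq (kl A : ℕ) : QC.isE kl A = isE kl A := by
  unfold QC.isE
  rw [mk_eq]
  rfl

theorem impl_eq (lv R : List ℕ) (kl l : ℕ) : QC.impl lv R kl l = impl lv R kl l := by
  have h' : QC.impl lv R kl l = (QC.has R l || cond (Nat.beq (l % 4) 0)
      (QC.has R (l + 1) || QC.has lv (l / 4)) (cond (Nat.beq (l % 4) 1) false
      (cond (Nat.beq (l % 4) 2) (QC.isE kl (l / 4)) (QC.has R (l - 1) || QC.isE kl (l / 4))))) := rfl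
  have h : impl lv R kl l = cond (has R l) true (cond (Nat.beq (l % 4) 0)
      (cond (has R (l + 1)) true (has lv (l / 4))) (cond (Nat.beq (l % 4) 1) false
      (cond (Nat.beq (l % 4) 2) (isE kl (l / 4)) (cond (has R (l - 1)) true (isE kl (l / 4)))))) := rfl
  rw [h, h']
  simp only [has_eq, isE_eq]
  cases QC.has R l <;> cases Nat.beq (l % 4) 0 <;> cases Nat.beq (l % 4) 1 <;>
    cases Nat.beq (l % 4) 2 <;> cases QC.has R (l + 1) <;> cases QC.has R (l - 1) <;> rfl

theorem subL_eq (lv R : List ℕ) (kl g : ℕ) (hg : g < 384) (Q : List ℕ) :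
    (Q.all fun q => QC.impl lv R kl (QC.mapL g q)) = subL lv R kl g Q := by
  induction Q with
  | nil => rfl
  | cons q Q ih =>
    have h : subL lv R kl g (q :: Q) =
      cond (impl lv R kl (mapL g q)) (subL lv R kl g Q) false := rfl
    rw [List.all_cons, ih, h, mapL_eq _ _ hg, impl_eq]
    cases impl lv R kl (mapL g q) <;> rfl

theorem sub1_eq (lv Q : List ℕ) (g : ℕ) (R : List ℕ) : QC.sub1 lv Q g R = sub1 lv Q g R := by
  have h' : QC.sub1 lv Q g R =
    (Nat.ble g 383 && Q.all fun q => QC.impl lv R (QC.kill R) (QC.mapL g q)) := rfl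
  have h : sub1 lv Q g R = cond (Nat.ble g 383) (subL lv R (kill R) g Q) false := rfl
  rw [h, h']
  cases hb : Nat.ble g 383 with
  | false => rfl
  | true =>
    have hg : g < 384 := by
      have := Nat.le_of_ble_eq_true hb
      omega
    rw [kill_eq, subL_eq _ _ _ _ hg]
    rfl

theorem decR_eq (n x : ℕ) : QC.decR n x = decR n x := by
  induction n generalizing x with
  | zero => rfl
  | succ n ih =>
    have h : decR (n + 1) x =
      cond (Nat.beq x 0) [] (x % 262144 :: decR n (x / 262144)) := rfl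
    have h' : QC.decR (n + 1) x =
      cond (Nat.beq x 0) [] (x % 262144 :: QC.decR n (x / 262144)) := rfl
    rw [h, h', ih]

theorem get_eq (t : Tr) (n : ℕ) : t.get n = get t n := by
  induction t generalizing n with
  | leaf x => rfl
  | node l r hl hr =>
    have h : get (.node l r) n = cond (Nat.beq (n % 2) 0) (get l (n / 2)) (get r (n / 2)) := rfl
    have h' : (Tr.node l r).get n = cond (Nat.beq (n % 2) 0) (l.get (n / 2)) (r.get (n / 2)) := rfl
    rw [h, h', hl, hr]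

theorem reg_eq (t : Tr) (i : ℕ) : t.reg i = reg t i := by
  have h : t.reg i = QC.decR 64 (t.get i) := rfl
  rw [h, decR_eq, get_eq]
  rfl

theorem rcOK_eq (E : FE) (hE : E.ok) (t : Tr) (i : ℕ) (r : Rc) :
    QC.rcOK E.env t i r = rcOK E (E.lv.map LS.A) t i r := by
  cases r with
  | leaf x =>
    show QC.leafOK E.env (t.reg i) x = leafOK E (reg t i) x
    rw [leafOK_eq E hE, reg_eq]
  | spec x ss =>
    show QC.specOK E.env (t.reg i) x ss = QC.specOK E.env (reg t i) x ss
    rw [reg_eq]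
  | br l j0 g0 j1 g1 =>
    have h' : QC.rcOK E.env t i (.br l j0 g0 j1 g1) = (Nat.ble (l % 4) 1 && Nat.ble (j0 + 1) i &&
      Nat.ble (j1 + 1) i && QC.sub1 (E.lv.map LS.A) (t.reg j0) g0 (l :: t.reg i) &&
      QC.sub1 (E.lv.map LS.A) (t.reg j1) g1 ((l + 2) :: t.reg i)) := rfl
    have h : rcOK E (E.lv.map LS.A) t i (.br l j0 g0 j1 g1) = cond (Nat.ble (l % 4) 1)
      (cond (Nat.ble (j0 + 1) i) (cond (Nat.ble (j1 + 1) i)
      (cond (sub1 (E.lv.map LS.A) (reg t j0) g0 (l :: reg t i))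
        (sub1 (E.lv.map LS.A) (reg t j1) g1 ((l + 2) :: reg t i)) false) false) false) false := rfl
    rw [h, h']
    simp only [sub1_eq, reg_eq]
    cases Nat.ble (l % 4) 1 <;> cases Nat.ble (j0 + 1) i <;> cases Nat.ble (j1 + 1) i <;>
      cases sub1 (E.lv.map LS.A) (reg t j0) g0 (l :: reg t i) <;> rfl

theorem chunk_eq (E : FE) (hE : E.ok) (t : Tr) (i : ℕ) (rs : List Rc) :
    QC.chunk E.env t i rs = chunk E (E.lv.map LS.A) t rs i := by
  induction rs generalizing i with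
  | nil => rfl
  | cons r rs ih =>
    have h : chunk E (E.lv.map LS.A) t (r :: rs) i = cond (rcOK E (E.lv.map LS.A) t i r)
      (chunk E (E.lv.map LS.A) t rs (i + 1)) false := rfl
    have h' : QC.chunk E.env t i (r :: rs) =
      (QC.rcOK E.env t i r && QC.chunk E.env t (i + 1) rs) := rfl
    rw [h, h', ih, rcOK_eq E hE]
    cases rcOK E (E.lv.map LS.A) t i r <;> rfl

end

end Pool.Agent.Helper22.QC.F
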