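import Pool.Agent.Helper22.QC.A.All
import Pool.Agent.Helper22.QC.Lem.M01
import Pool.Agent.Helper22.QC.PotA
import Pool.Agent.Helper2.QS.FinalQ

/-!
# `f(n) ≥ 1.0091 log₂ n - C`
-/

namespace Pool.Agent.Helper22.QC

open Finset
open Pool.Agent.Helper2.OC

theorem goodU (s : Fin 4 → Comp) (hs : ∀ i, (s i).Ok) : Good potU 264 s := by
  refine good_scale potU 16384 263 (by norm_num) s ?_
  rw [← potA_eq]
  exact A.holdsA s hs (by simp)

theorem gT_zero : gT potU 0 = 0 := by decide

theorem emp_le (p q : Comp) : emp p q ≤ 4 := by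
  unfold emp
  simp only [Fintype.sum_bool]
  split_ifs <;> norm_num

theorem KK_bound (p q : Comp) : |12 * (KK potU p q : ℝ) / ((264 : ℕ) : ℝ)| ≤ 1 := by
  have h := emp_le p q
  have h1 : 0 ≤ KK potU p q ∧ KK potU p q ≤ 10 := by
    unfold KK
    simp only [potU]
    constructor
    · split_ifs <;> push_cast <;> omega
    · split_ifs <;> push_cast <;> omega
  have h2 : (0 : ℝ) ≤ (KK potU p q : ℝ) := by exact_mod_cast h1.1
  have h3 : (KK potU p q : ℝ) ≤ 10 := by exact_mod_cast h1.2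
  rw [abs_le]
  push_cast
  constructor <;> linarith

/-- the main bound -/
theorem bound_A : ∃ C : ℝ, ∀ n : ℕ, 1 ≤ n →
    ENNReal.ofReal (1.0091 * Real.logb 2 n - C) ≤ f n := by
  have h := fourIneq_of_good potU 264 (by norm_num) gT_zero goodU
  have h' : FourIneq (gR potU 264) (ΛR potU 264) (12 * (6 : ℝ) / 264)
      (fun p q => 12 * (KK potU p q : ℝ) / ((264 : ℕ) : ℝ)) := by
    have e : (12 * (potU.kap : ℝ) / ((264 : ℕ) : ℝ)) = 12 * (6 : ℝ) / 264 := by
      simp [potU]
    rw [e] at h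
    exact h
  exact Pool.Agent.Helper2.QS.bound_QC h' KK_bound

end Pool.Agent.Helper22.QC
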