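import Pool.Agent.Helper22.QC.Check

/-!
# Semantics of the checker: definitions (no proofs in this file)
-/

namespace Pool.Agent.Helper22.QC

open Finset
open Pool.Agent.Helper2.OC

/-! ## packed functions -/

/-- a function of the type, packed with 40 bits per type -/
def pk (f : ℕ → ℕ) : ℕ := ∑ t ∈ range 256, f t * 2 ^ (40 * t)

/-! ## classes of colours in a term -/

/-- kind of a colour in a pair of components with (oriented) codes `x`, `y`:
`1` free, `4, 5` private to side `false` of the merge (one resp. two live entries), `6, 7` private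
to side `true`, `8` opposed, `9` free/dead, `10` live/dead, `11` dead/dead -/
def kindOf (x y : ℕ) : ℕ :=
  if x = 0 then (if y = 0 then 1 else if y = 1 then 4 else if y = 2 then 6 else 9)
  else if y = 0 then (if x = 1 then 4 else if x = 2 then 6 else 9)
  else if x = 3 then (if y = 3 then 11 else 10)
  else if y = 3 then 10
  else if x = y then (if x = 1 then 5 else 7) else 8

/-- merged code of a kind -/
def mcd (k : ℕ) : ℕ := if k = 1 then 0 else if k ≤ 5 then 1 else if k ≤ 7 then 2 else 3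

/-- class (position in the list of weights, `20` if irrelevant) of a colour with kinds `k`, `k'` in
the two pairs of a term -/
def clsK (k k' : ℕ) : ℕ :=
  if k = 1 then (if k' = 1 then 20 else k')
  else if k' = 1 then k + 8
  else if mcd k = 3 ∨ mcd k' = 3 then 20
  else 2 * (mcd k - 1) + (mcd k' - 1)

/-- class of the type `t` in the term `(i, o, o')` -/
def cls (i : Fin 3) (o o' : Bool) (t : ℕ) : ℕ :=
  clsK (kindOf (dig t (pr i 0)) (swo o (dig t (pr i 1))))
    (kindOf (dig t (pr i 2)) (swo o' (dig t (pr i 3))))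

/-- class of the colour `c` for components `p, q | r, t` -/
def clsC (p q r t : Comp) (o o' : Bool) (c : ℕ) : ℕ :=
  clsK (kindOf (cod p c) (swo o (cod q c))) (kindOf (cod r c) (swo o' (cod t c)))

/-! ## new colours of fixes -/

/-- new colours on the side `σ` -/
def newc (m f : Comp) (σ : Bool) : Finset ℕ := f σ \ m σ

/-- is there a new colour? -/
def xn (m f : Comp) (σ : Bool) : ℤ := if newc m f σ = ∅ then 0 else 1

/-- `k` is the kind of the new colour on side `σ` of `f` (a fix of `m`), where `f'` is the fix of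
`m' = mrg r t o'`: `0` no new colour, `2, 3` also new on side `false, true` of `f'`, otherwise the
kind in the pair `r, t` -/
def nkind (m f m' f' r t : Comp) (o' : Bool) (σ : Bool) (k : ℕ) : Prop :=
  (k = 0 ∧ newc m f σ = ∅) ∨
    ∃ c ∈ newc m f σ, k = if c ∈ newc m' f' false then 2 else if c ∈ newc m' f' true then 3
      else kindOf (cod r c) (swo o' (cod t c))

/-- all kinds are allowed by the masks -/
def KindsIn (A : Msk) (p q r t : Comp) (o o' : Bool) (f f' : Comp) : Prop :=
  (∀ k, nkind (mrg p q o) f (mrg r t o') f' r t o' false k → A.a0.testBit k = true) ∧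
  (∀ k, nkind (mrg p q o) f (mrg r t o') f' r t o' true k → A.a1.testBit k = true) ∧
  (∀ k, nkind (mrg r t o') f' (mrg p q o) f p q o false k → A.a2.testBit k = true) ∧
  (∀ k, nkind (mrg r t o') f' (mrg p q o) f p q o true k → A.a3.testBit k = true)

/-- indicator that the side `σ` of the merge of `p, q` has no private colour -/
def eM (p q : Comp) (o σ : Bool) : ℤ := if slot p q σ (xor σ o) = ∅ then 1 else 0

/-! ## semantics of accumulated certificates -/

/-- `a` certifies a lower bound of `v` in the state `s`; `n` bounds the size -/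
def Sem (s : Fin 4 → Comp) (a : Acc) (v : ℤ) (n : ℕ) : Prop :=
  ∃ fL fR : ℕ → ℕ, a.L = pk fL ∧ a.R = pk fR ∧ (∀ t, fL t ≤ n * 2 ^ 27) ∧
    (∀ t, fR t ≤ n * 2 ^ 27) ∧
    (a.ok = true → (a.ga : ℤ) - a.lo + ∑ c ∈ U s, (fR (typ s c) : ℤ) -
      ∑ c ∈ U s, (fL (typ s c) : ℤ) ≤ v)

theorem Sem.add {s : Fin 4 → Comp} {a b : Acc} {v w : ℤ} {m n : ℕ} (ha : Sem s a v m)
    (hb : Sem s b w n) (hpk : ∀ f g : ℕ → ℕ, pk (fun t => f t + g t) = pk f + pk g) :
    Sem s (a.add b) (v + w) (m + n) := by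
  obtain ⟨f, g, h1, h2, h3, h4, h5⟩ := ha
  obtain ⟨f', g', h1', h2', h3', h4', h5'⟩ := hb
  refine ⟨fun t => f t + f' t, fun t => g t + g' t, ?_, ?_, ?_, ?_, ?_⟩
  · simp only [Acc.add, h1, h1', hpk]
  · simp only [Acc.add, h2, h2', hpk]
  · intro t
    rw [Nat.add_mul]
    exact Nat.add_le_add (h3 t) (h3' t)
  · intro t
    rw [Nat.add_mul]
    exact Nat.add_le_add (h4 t) (h4' t)
  · intro hok
    simp only [Acc.add, Bool.and_eq_true] at hok
    have e1 := h5 hok.1
    have e2 := h5' hok.2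
    simp only [Acc.add]
    push_cast
    rw [Finset.sum_add_distrib, Finset.sum_add_distrib]
    linarith

/-! ## tables -/

/-- the data of the term `(i, o, o')` -/
def tdC (i : Fin 3) (o o' : Bool) : TD :=
  ⟨[mP (pr i 0) 0 (pr i 1) o.toNat, mP (pr i 0) 1 (pr i 1) (!o).toNat,
    mP (pr i 2) 0 (pr i 3) o'.toNat, mP (pr i 2) 1 (pr i 3) (!o').toNat],
   (List.range 20).map fun j => pk fun t => if cls i o o' t = j then 1 else 0⟩

def tdL : List TD :=
  [tdC 0 false false, tdC 0 false true, tdC 0 true false, tdC 0 true true,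
   tdC 1 false false, tdC 1 false true, tdC 1 true false, tdC 1 true true,
   tdC 2 false false, tdC 2 false true, tdC 2 true false, tdC 2 true true]

/-- data of the pair `i < j`; `ix` are the positions of the multipliers of the merge sides -/
def pdC (i j : ℕ) (ix : List ℕ) : PD :=
  ⟨[(mP i 0 j 0, ix.getD 0 0, ix.getD 1 0), (mP i 0 j 1, ix.getD 2 0, ix.getD 3 0),
    (mP i 1 j 0, ix.getD 4 0, ix.getD 5 0), (mP i 1 j 1, ix.getD 6 0, ix.getD 7 0)],
   [lP i 0, lP i 1, lP j 0, lP j 1]⟩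

def pdL : List PD :=
  [pdC 0 1 [4, 12, 20, 28, 21, 29, 5, 13], pdC 0 2 [36, 44, 52, 60, 53, 61, 37, 45],
   pdC 0 3 [68, 76, 84, 92, 85, 93, 69, 77], pdC 1 2 [70, 86, 78, 94, 79, 95, 71, 87],
   pdC 1 3 [38, 54, 46, 62, 47, 63, 39, 55], pdC 2 3 [6, 22, 14, 30, 15, 31, 7, 23]]

def lvL : List ℕ := [lP 0 0, lP 0 1, lP 1 0, lP 1 1, lP 2 0, lP 2 1, lP 3 0, lP 3 1]

structure EnvOK (E : Env) : Prop where
  hKB : E.P.KB ≤ E.P.KE
  hG : ∀ t, gT E.P t ≤ 2 ^ 27
  hG0 : gT E.P 0 = 0
  hlm : ∀ i, E.P.lm.getD i 0 ≤ 2 ^ 24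
  hGP : E.GP = pk (gT E.P)
  htd : E.td = tdL
  hpd : E.pd = pdL
  hlv : E.lv = lvL

/-! ## symmetries -/

def flipC (e : Bool) (p : Comp) : Comp := fun σ => p (xor σ e)

def act (π : Fin 4 → Fin 4) (ε : Fin 4 → Bool) (s : Fin 4 → Comp) : Fin 4 → Comp :=
  fun i => flipC (ε i) (s (π i))

/-! ## real parameters -/

def lamK (a b m : Fin 3) : ℕ :=
  if a = 0 then (if b = 0 then 0 else if b = 2 then 2 else 1)
  else if b = 0 then (if a = 2 then 2 else 1)
  else if a = 2 then (if b = 2 then 6 else 5)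
  else if b = 2 then 5
  else if m = 1 then 3 else 4

noncomputable def ΛR (P : Pot) (T : ℕ) : Fin 3 → Fin 3 → Fin 3 → ℝ := fun a b m =>
  24 * ((P.lp.getD (lamK a b m) 0 : ℝ) - (P.lm.getD (lamK a b m) 0 : ℝ)) / T

noncomputable def gR (P : Pot) (T : ℕ) : Fin 3 → Fin 3 → Fin 3 → Fin 3 → ℝ := fun a b c d =>
  (((P.G.getD ((if a = 1 then 1 else 0) + (if b = 1 then 1 else 0) + (if c = 1 then 1 else 0) +
    (if d = 1 then 1 else 0)) []).getD ((if a = 2 then 1 else 0) + (if b = 2 then 1 else 0) +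
    (if c = 2 then 1 else 0) + (if d = 2 then 1 else 0)) 0 : ℕ) : ℝ) / T

/-- potential with all parameters multiplied by `D` -/
def Pot.scale (D : ℕ) (P : Pot) : Pot :=
  ⟨D * P.KE, D * P.K1, D * P.KB, D * P.kap, P.lp.map (D * ·), P.lm.map (D * ·),
    P.G.map fun l => l.map (D * ·)⟩

end Pool.Agent.Helper22.QC
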